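import Pool.Agent.H28.GS.Targets

/-!
# (MAS) small twisted sums near a rational number
-/

set_option autoImplicit false

open Finset Filter Topology

namespace Pool.Agent.H60.GS

open Pool.Agent.H28.GS Pool.Agent.H31.DP

theorem mas_ee_eq (x : ℝ) : ee x = Complex.exp (Complex.I * ((2 * Real.pi * x : ℝ) : ℂ)) := by
  unfold ee
  congr 1
  push_cast
  ring

theorem mas_norm_ee (x : ℝ) : ‖ee x‖ = 1 := by
  rw [mas_ee_eq, mul_comm Complex.I, Complex.norm_exp_ofReal_mul_I]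

theorem mas_ee_add (x y : ℝ) : ee (x + y) = ee x * ee y := by
  unfold ee
  rw [← Complex.exp_add]
  congr 1
  push_cast
  ring

theorem mas_ee_int (t : ℤ) : ee (t : ℝ) = 1 := by
  unfold ee
  rw [Complex.exp_eq_one_iff]
  exact ⟨t, by push_cast; ring⟩

theorem mas_ee_sub (x : ℝ) : ‖ee x - 1‖ ≤ 2 * Real.pi * |x| := by
  rw [mas_ee_eq]
  refine (Real.norm_exp_I_mul_ofReal_sub_one_le).trans ?_
  rw [Real.norm_eq_abs, abs_mul, abs_of_nonneg (by positivity)]

/-- two elements of a cell -/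
theorem mas_cell {W J N : ℕ} {B θ : ℝ} {a : ℤ} (hW : 0 < W) (hJ : 0 < J) (hN : 0 < N)
    (hB : 0 ≤ B) (hθ : |(W : ℝ) * θ - a| ≤ B * W / N) {m n : ℤ} (hm : m ∈ cell W J N n) :
    ‖ee (m * θ) - ee (n * θ)‖ ≤ 2 * Real.pi * (B / J) := by
  unfold cell at hm
  rw [Finset.mem_filter] at hm
  obtain ⟨-, h1, h2⟩ := hm
  have hW0 : (0 : ℝ) < W := by exact_mod_cast hW
  have hJ0 : (0 : ℝ) < J := by exact_mod_cast hJ
  have hN0 : (0 : ℝ) < N := by exact_mod_cast hN
  have hN1 : (0 : ℤ) < N := by exact_mod_cast hN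
  obtain ⟨t, ht⟩ : (W : ℤ) ∣ m - n := Int.ModEq.dvd (Int.ModEq.symm h1)
  have htR : (m : ℝ) - n = W * t := by exact_mod_cast ht
  -- distance
  have hd : |(m : ℝ) - n| ≤ N / J := by
    have a1 := Int.emod_add_mul_ediv ((J : ℤ) * m) N
    have a2 := Int.emod_add_mul_ediv ((J : ℤ) * n) N
    have b1 := Int.emod_nonneg ((J : ℤ) * m) hN1.ne'
    have b2 := Int.emod_nonneg ((J : ℤ) * n) hN1.ne'
    have b3 := Int.emod_lt_of_pos ((J : ℤ) * m) hN1
    have b4 := Int.emod_lt_of_pos ((J : ℤ) * n) hN1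
    rw [h2] at a1
    have c1 : (J : ℤ) * m - J * n ≤ N := by omega
    have c2 : -(N : ℤ) ≤ (J : ℤ) * m - J * n := by omega
    have d1 : (J : ℝ) * m - J * n ≤ N := by exact_mod_cast c1
    have d2 : -(N : ℝ) ≤ (J : ℝ) * m - J * n := by exact_mod_cast c2
    rw [le_div_iff₀ hJ0]
    have e0 : |(m : ℝ) - n| * J = |(J : ℝ) * m - J * n| := by
      rw [← mul_sub, abs_mul, abs_of_pos hJ0, mul_comm]
    rw [e0, abs_le]
    exact ⟨d2, d1⟩
  have hβ : |θ - a / W| ≤ B / N := by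
    have e1 : θ - a / W = ((W : ℝ) * θ - a) / W := by field_simp
    rw [e1, abs_div, abs_of_pos hW0, div_le_iff₀ hW0]
    refine hθ.trans (le_of_eq ?_)
    ring
  have h3 : (m : ℝ) * θ = n * θ + ((t * a : ℤ) : ℝ) + ((m : ℝ) - n) * (θ - a / W) := by
    have e2 : ((m : ℝ) - n) * (a / W) = t * a := by
      rw [htR]
      field_simp
    push_cast
    linear_combination e2
  have h4 : ee (m * θ) - ee (n * θ) = ee (n * θ) * (ee (((m : ℝ) - n) * (θ - a / W)) - 1) := by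
    rw [h3, mas_ee_add, mas_ee_add, mas_ee_int]
    ring
  rw [h4, norm_mul, mas_norm_ee, one_mul]
  refine (mas_ee_sub _).trans ?_
  refine mul_le_mul_of_nonneg_left ?_ (by positivity)
  rw [abs_mul]
  refine (mul_le_mul hd hβ (abs_nonneg _) (by positivity)).trans (le_of_eq ?_)
  field_simp

theorem pf_MAS : T_MAS := by
  classical
  intro W J N B g θ a hW hJ hN hB hg hcell hθ
  have hJ0 : (0 : ℝ) < J := by exact_mod_cast hJ
  have hN0 : (0 : ℝ) < N := by exact_mod_cast hN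
  set c : ℤ → ℤ × ℤ := fun n => (n % (W : ℤ), (J : ℤ) * n / (N : ℤ)) with hc
  set S : Finset ℤ := Finset.Icc (1 : ℤ) N with hS
  have hfib : ∀ n : ℤ, S.filter (fun m => c m = c n) = cell W J N n := by
    intro n
    unfold cell
    refine Finset.filter_congr fun m _ => ?_
    rw [hc, Prod.mk.injEq]
  have h1 : ∑ n ∈ S, ((g n : ℝ) : ℂ) * ee (n * θ) =
      ∑ y ∈ S.image c, ∑ n ∈ S.filter (fun m => c m = y), ((g n : ℝ) : ℂ) * ee (n * θ) :=
    (Finset.sum_fiberwise_of_maps_to (fun n hn => Finset.mem_image_of_mem c hn) _).symm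
  have h2 : ∀ y ∈ S.image c, ‖∑ n ∈ S.filter (fun m => c m = y), ((g n : ℝ) : ℂ) * ee (n * θ)‖ ≤
      ((S.filter (fun m => c m = y)).card : ℝ) * (2 * Real.pi * (B / J)) := by
    intro y hy
    obtain ⟨n, hn, rfl⟩ := Finset.mem_image.1 hy
    rw [hfib n]
    have h3 : ∑ m ∈ cell W J N n, ((g m : ℝ) : ℂ) * ee (m * θ) =
        ∑ m ∈ cell W J N n, ((g m : ℝ) : ℂ) * (ee (m * θ) - ee (n * θ)) := by
      have h4 : ∑ m ∈ cell W J N n, ((g m : ℝ) : ℂ) * ee (n * θ) = 0 := by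
        rw [← Finset.sum_mul, ← Complex.ofReal_sum, hcell n, Complex.ofReal_zero, zero_mul]
      rw [Finset.sum_congr rfl fun m _ => mul_sub _ _ _, Finset.sum_sub_distrib, h4, sub_zero]
    rw [h3, ← nsmul_eq_mul]
    refine (norm_sum_le _ _).trans (Finset.sum_le_card_nsmul _ _ _ fun m hm => ?_)
    rw [norm_mul, Complex.norm_real, Real.norm_eq_abs]
    refine (mul_le_of_le_one_left (norm_nonneg _) (hg m)).trans ?_
    exact mas_cell hW hJ hN hB hθ hm
  rw [h1]
  refine (norm_sum_le _ _).trans ((Finset.sum_le_sum h2).trans ?_)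
  rw [← Finset.sum_mul]
  have h5 : ∑ y ∈ S.image c, ((S.filter (fun m => c m = y)).card : ℝ) = N := by
    have h6 := Finset.card_eq_sum_card_image c S
    have h7 : (S.card : ℝ) = ∑ y ∈ S.image c, ((S.filter (fun m => c m = y)).card : ℝ) := by
      exact_mod_cast h6
    rw [← h7, hS, Int.card_Icc]
    simp
  rw [h5]
  have h8 : 2 * Real.pi * B * (1 / (J : ℝ) + 1 / N) * N =
      N * (2 * Real.pi * (B / J)) + 2 * Real.pi * B := by
    field_simp
  rw [h8]
  have : 0 ≤ 2 * Real.pi * B := by positivity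
  linarith

end Pool.Agent.H60.GS
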